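import Pool.Agent.Y481.DX.Defs
import Pool.Agent.Y529.DR.V2
import Pool.Agent.Y833.CJ.MXN
import Pool.Agent.Y472.CJ.Cizx
import Pool.Agent.Y48.DR.FAZV
import Pool.Agent.Y48.DR.TFBV
import Pool.Agent.Y319.DR.Thzv
import Pool.Agent.Y899.DR.KFV
import Pool.Agent.Y68.CG.KBZ
import Pool.Agent.Y238.CG.PF
import Pool.Agent.Y125.CG.Cnb
import Pool.Agent.Y991.CG.LMI
import Pool.Agent.Y37.CG.Krz
import Pool.Agent.Y252.CG.Kaz
import Pool.Agent.Y252.CG.Rhoa
import Pool.Agent.Y710.CG.S0P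
import Pool.Agent.Y288.CB.TB0
import Pool.Agent.Y105.CB.Rho
import Pool.Agent.Y317.CB.Rhoy
import Pool.Agent.Y46.CB.TBY
import Pool.Agent.Y79.CG.Rhot2
import Pool.Agent.Y761.CG.Csz

/-!
# DX-MXNF: the expansion for many vertices, absolute constants
-/

set_option autoImplicit false

namespace Pool.Agent.Y785.DX

open Finset Filter Topology Metric
open Pool.Agent.W711.HT hiding XX
open Pool.Agent.Y472 Pool.Agent.Y481.DR Pool.Agent.Y481.DX
open Pool.Agent.Y833.CB Pool.Agent.Y421.CG Pool.Agent.Y290.CH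
open Pool.Agent.Y529.DR
open Pool.Agent.Y852.PH.MX (exy_near)
open Pool.Agent.Y481 (cw)
open Pool.Agent.W719.AX (UX EXY)
open scoped Real

/-- from the normalised trace to the trace -/
lemma mw_trv {ls : List (Vx × Vx)} {G : ℂ → ℂ} {U : Set ℂ} {B : ℝ} (hB : ∀ w ∈ U, ‖G w‖ ≤ B)
    (h : MW (XFV ls) G U) : MW (fun N => TV N ls) G U := by
  refine MW_tf (X := XFV ls) (2 * ls.length) (L := -B) (δ := 1) one_pos h ?_ ?_
  · intro w hw
    have h1 := (abs_le.1 (Complex.abs_re_le_norm (G w))).1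
    linarith [hB w hw]
  · filter_upwards [eventually_ge_atTop 1] with N hN w hw
    have hN0 : (N : ℂ) ≠ 0 := by
      have : N ≠ 0 := by omega
      exact_mod_cast this
    have hπ : (π : ℂ) ≠ 0 := by exact_mod_cast Real.pi_ne_zero
    have h1 : ((N : ℂ) / (2 * π)) ^ (2 * ls.length) ≠ 0 := by
      apply pow_ne_zero
      apply div_ne_zero hN0
      exact mul_ne_zero two_ne_zero hπ
    unfold XFV
    rw [← mul_assoc, mul_inv_cancel₀ h1, one_mul, sub_self, norm_zero]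
    positivity

/-- the expansion of the trace near a point of the upper half plane -/
lemma gxo_tv {k : ℕ} {ls : List (Vx × Vx)} {G : ℂ → ℂ} {R r : ℝ} {χ : ℂ} {KK : Set ℂ}
    {A : ℕ → ℂ → ℂ} (hG : DifferentiableOn ℂ G (Rc R R)) (hlen : ls.length = k)
    (hKR : KK ⊆ Rc R R) (hbox : ∀ w ∈ Rc r r, w + χ ∈ KK)
    (hux : UX (fun N χ => Complex.exp (-(N * G χ)) * ((N : ℂ) ^ (2 * k) * XFV ls N χ)) A KK)
    (hA0 : ∀ χ ∈ KK, A 0 χ ≠ 0) :
    GXo (Rc r r) (fun N w => TV N ls (w + χ)) (fun w => G (w + χ))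
      (fun j w => (1 / (2 * π : ℂ) ^ (2 * k)) * A j (w + χ)) := by
  have hπ : (π : ℂ) ≠ 0 := by exact_mod_cast Real.pi_ne_zero
  have h2 : ((2 * π : ℂ) ^ (2 * k)) ≠ 0 := pow_ne_zero _ (mul_ne_zero two_ne_zero hπ)
  have hux' : UX (fun N w => Complex.exp (-(N * G (w + χ))) * TV N ls (w + χ))
      (fun j w => (1 / (2 * π : ℂ) ^ (2 * k)) * A j (w + χ)) (Rc r r) := by
    intro K
    obtain ⟨C, hC⟩ := hux K
    refine ⟨‖(1 / (2 * π : ℂ) ^ (2 * k))‖ * C, ?_⟩
    filter_upwards [hC, eventually_ge_atTop 1] with N hN h1 w hw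
    have hN0 : (N : ℂ) ≠ 0 := by
      have : N ≠ 0 := by omega
      exact_mod_cast this
    have h3 : ((N : ℂ) / (2 * π)) ^ (2 * k) ≠ 0 :=
      pow_ne_zero _ (div_ne_zero hN0 (mul_ne_zero two_ne_zero hπ))
    have h4 : TV N ls (w + χ) =
        (1 / (2 * π : ℂ) ^ (2 * k)) * ((N : ℂ) ^ (2 * k) * XFV ls N (w + χ)) := by
      unfold XFV
      rw [hlen]
      have h5 : (1 / (2 * π : ℂ) ^ (2 * k)) * ((N : ℂ) ^ (2 * k) *
          ((((N : ℂ) / (2 * π)) ^ (2 * k))⁻¹ * TV N ls (w + χ))) =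
          (((N : ℂ) ^ (2 * k) / (2 * π : ℂ) ^ (2 * k)) * (((N : ℂ) / (2 * π)) ^ (2 * k))⁻¹) *
            TV N ls (w + χ) := by ring
      rw [h5, ← div_pow, mul_inv_cancel₀ h3, one_mul]
    have h6 : ∑ j ∈ range K, (1 / (2 * π : ℂ) ^ (2 * k)) * A j (w + χ) / (N : ℂ) ^ j =
        (1 / (2 * π : ℂ) ^ (2 * k)) * ∑ j ∈ range K, A j (w + χ) / (N : ℂ) ^ j := by
      rw [mul_sum]
      exact sum_congr rfl fun j _ => mul_div_assoc _ _ _
    have h7 := hN (w + χ) (hbox w hw)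
    have h8 : Complex.exp (-(N * G (w + χ))) * TV N ls (w + χ) -
        ∑ j ∈ range K, (1 / (2 * π : ℂ) ^ (2 * k)) * A j (w + χ) / (N : ℂ) ^ j =
        (1 / (2 * π : ℂ) ^ (2 * k)) * (Complex.exp (-(N * G (w + χ))) *
          ((N : ℂ) ^ (2 * k) * XFV ls N (w + χ)) - ∑ j ∈ range K, A j (w + χ) / (N : ℂ) ^ j) := by
      rw [h6, h4]
      ring
    rw [h8, norm_mul, mul_div_assoc]
    exact mul_le_mul_of_nonneg_left h7 (norm_nonneg _)
  refine ⟨hux', ?_, fun w hw => mul_ne_zero (one_div_ne_zero h2) (hA0 _ (hbox w hw))⟩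
  refine Pool.Agent.W303.AX.uxan _ _ _ (Rc_open r) (Eventually.of_forall fun N => ?_) hux'
  have d1 : Differentiable ℂ fun w : ℂ => w + χ := differentiable_id.add_const χ
  have d2 : DifferentiableOn ℂ (fun w => G (w + χ)) (Rc r r) :=
    hG.comp d1.differentiableOn fun w hw => hKR (hbox w hw)
  have d3 : DifferentiableOn ℂ (fun w => TV N ls (w + χ)) (Rc r r) :=
    ((TV_diff N ls).comp d1).differentiableOn
  exact ((d2.const_mul (N : ℂ)).neg.cexp).mul d3

theorem mxnf_of (hbet : 1 / 2 ≤ bet) (hFA : FAVc) (hTH : THVc) (hCI : S_CIZX) (hS0 : S_S0P) :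
    S_MXNF := by
  intro ρ₀ c C s dl hs hX R₀ B₀ hR₀ hB₀
  have hπ := Real.pi_gt_three
  have hπ2 := Real.pi_lt_d2
  obtain ⟨R, c₂, B₂, C', M₀, hR, hR1, hRρ, hc₂, hB₂, hC', hM₀, HX⟩ :=
    hX R₀ B₀ hR₀ hB₀
  obtain ⟨Cg, hCg, hCg2⟩ := s0_bd hS0
  have hC := hs.hC
  -- constants
  set δ : ℝ := R ^ 2 / (32 * π) with hδ
  have hδ0 : 0 < δ := by positivity
  have hδ1 : δ ≤ 1 / 96 := by
    rw [hδ, div_le_iff₀ (by positivity)]
    have : R ^ 2 ≤ 1 := by nlinarith
    linarith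
  set q : ℝ := 3 / c₂ with hq
  have hq0 : 0 < q := by positivity
  -- `q / k` bounds `‖χ‖`
  set Cm : ℝ := π * B₂ * (q + B₂ * q ^ 2) with hCm
  have hCm0 : 0 < Cm := by positivity
  set Cv : ℝ := (q + B₂ * q ^ 2) + q + 2 * (q ^ 2 + C * q ^ 4) with hCv
  have hCv0 : 0 < Cv := by positivity
  obtain ⟨K, hK⟩ := exists_nat_ge (max (max 1 (8 * q / R)) (max (10 * q + 1)
    (max ((Cm + Cv + 1) / δ) (max (Cg * q / δ) (10 * Cv)))))
  refine ⟨K, max M₀ (max (2 * C' / δ) 1), ?_⟩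
  intro k hkK ls F An m hlen hDG hls
  have hkK' : (K : ℝ) ≤ k := by exact_mod_cast hkK
  have hKk := hK.trans hkK'
  have K1 : 1 ≤ (k : ℝ) := (le_max_left _ _).trans ((le_max_left _ _).trans hKk)
  have K2 : 8 * q / R ≤ (k : ℝ) := (le_max_right _ _).trans ((le_max_left _ _).trans hKk)
  have K3 : 10 * q + 1 ≤ (k : ℝ) := (le_max_left _ _).trans ((le_max_right _ _).trans hKk)
  have K4 : (Cm + Cv + 1) / δ ≤ (k : ℝ) :=
    (le_max_left _ _).trans ((le_max_right _ _).trans ((le_max_right _ _).trans hKk))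
  have K5 : Cg * q / δ ≤ (k : ℝ) := (le_max_left _ _).trans ((le_max_right _ _).trans
    ((le_max_right _ _).trans ((le_max_right _ _).trans hKk)))
  have K6 : 10 * Cv ≤ (k : ℝ) := (le_max_right _ _).trans ((le_max_right _ _).trans
    ((le_max_right _ _).trans ((le_max_right _ _).trans hKk)))
  clear hK hKk
  have hk0 : (0 : ℝ) < k := by linarith
  have hk : 1 ≤ k := by exact_mod_cast K1
  set M : ℝ := max M₀ (max (2 * C' / δ) 1) with hM
  have m1 : M₀ ≤ M := le_max_left _ _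
  have m2 : 2 * C' / δ ≤ M := (le_max_left _ _).trans (le_max_right _ _)
  have m3 : 1 ≤ M := (le_max_right _ _).trans (le_max_right _ _)
  have hM0 : 0 < M := by linarith
  have hCM : C' * k / M ≤ δ / 2 * k := by
    rw [div_le_iff₀ hδ0] at m2
    rw [div_le_iff₀ hM0]
    have h1 : C' ≤ δ / 2 * M := by linarith
    calc C' * k ≤ δ / 2 * M * k := mul_le_mul_of_nonneg_right h1 hk0.le
      _ = _ := by ring
  have hls0 : ls ≠ [] := by
    rintro rfl
    simp at hlen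
    omega
  obtain ⟨G, z, hGd, hGb, hXX, hz, hclose⟩ := HX k hk ls F An hlen hDG
    (fun j hj => m1.trans (hls j hj))
  have hsub : SubL ls := subl_of fun j hj => (hDG j (by rwa [← hlen])).dg.sub
  have hGc := hclose M hls hM0
  -- the critical point
  have hqk : 3 / (c₂ * k) = q / k := by rw [hq]; field_simp
  have hqk8 : q / k ≤ R / 8 := by
    rw [div_le_iff₀ hk0]
    rw [div_le_iff₀ hR] at K2
    linarith
  have hqk10 : q / k ≤ 1 / 10 * (1 - 1 / k) := by
    have : 1 / 10 * (1 - 1 / (k : ℝ)) = (k - 1) / 10 / k := by field_simp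
    rw [this]
    gcongr
    linarith
  have hqk10' : q / k < 1 / 10 := by
    have : 0 < 1 / (k : ℝ) := by positivity
    linarith
  obtain ⟨χ, hχn, hχc, hχ0, hχi, hχm⟩ := crit_pt (R := R) (c := c₂ * k) (B := B₂ * k) (G := G) m hR
    (by positivity) (by rw [hqk]; linarith) hGd hGb
  rw [hqk] at hχn
  have hχR : χ ∈ Rc R R := Rc_ball (by linarith : q / k < R) hχn
  obtain ⟨hz1, hz2, hz3⟩ := hz χ hχR
  have hn0 : 0 ≤ ‖χ‖ := norm_nonneg _
  have hnq : ‖χ‖ * k ≤ q := by rwa [le_div_iff₀ hk0] at hχn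
  -- bounds
  have hsq : B₂ * k * ‖χ‖ ^ 2 * k ≤ B₂ * q ^ 2 := by
    have : (‖χ‖ * k) ^ 2 ≤ q ^ 2 := by gcongr
    calc B₂ * k * ‖χ‖ ^ 2 * k = B₂ * (‖χ‖ * k) ^ 2 := by ring
      _ ≤ _ := by gcongr
  have hsum : (‖χ‖ + B₂ * k * ‖χ‖ ^ 2) * k ≤ q + B₂ * q ^ 2 := by
    rw [add_mul]; linarith
  have hmh : |(m : ℝ)| * χ.im ≤ Cm := by
    have h1 : |(m : ℝ)| * χ.im ≤ B₂ * k * (|(m : ℝ)| * ‖χ‖ ^ 2) := by
      calc |(m : ℝ)| * χ.im ≤ |(m : ℝ)| * (B₂ * k * ‖χ‖ ^ 2) := by gcongr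
        _ = _ := by ring
    have h2 : B₂ * k * (|(m : ℝ)| * ‖χ‖ ^ 2) ≤ B₂ * k * (π * (‖χ‖ + B₂ * k * ‖χ‖ ^ 2)) := by
      gcongr
    have h3 : B₂ * k * (π * (‖χ‖ + B₂ * k * ‖χ‖ ^ 2)) =
        π * B₂ * ((‖χ‖ + B₂ * k * ‖χ‖ ^ 2) * k) := by ring
    rw [h3] at h2
    refine h1.trans (h2.trans ?_)
    rw [hCm]
    gcongr
  set V : ℝ := (Complex.I * m * χ ^ 2 / (2 * π) + Complex.I * χ + G χ).re with hV
  have hVlo : 4 * k * bet - δ / 2 * k - Cv / k ≤ V := by
    have e1 : ‖Complex.I * m * χ ^ 2 / (2 * π)‖ ≤ (q + B₂ * q ^ 2) / k := by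
      rw [norm_div, norm_mul, norm_mul, Complex.norm_I, one_mul, Complex.norm_intCast, norm_pow,
        norm_mul, Complex.norm_real, Real.norm_eq_abs, abs_of_pos (by linarith : (0:ℝ) < π)]
      rw [div_le_div_iff₀ (by simp; positivity) hk0]
      have h1 : |(m : ℝ)| * ‖χ‖ ^ 2 * k ≤ π * (q + B₂ * q ^ 2) := by
        calc |(m : ℝ)| * ‖χ‖ ^ 2 * k ≤ π * (‖χ‖ + B₂ * k * ‖χ‖ ^ 2) * k := by gcongr
          _ = π * ((‖χ‖ + B₂ * k * ‖χ‖ ^ 2) * k) := by ring
          _ ≤ _ := by gcongr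
      have h2 : (0 : ℝ) ≤ π * (q + B₂ * q ^ 2) := by positivity
      simp only [Complex.norm_ofNat]
      linarith
    have e2 : ‖Complex.I * χ‖ ≤ q / k := by
      rw [norm_mul, Complex.norm_I, one_mul]; exact hχn
    have e3 : ‖G χ - 4 * k * bet‖ ≤ δ / 2 * k + 2 * (q ^ 2 + C * q ^ 4) / k := by
      have h0 : (0 : ℂ) ∈ Rc ρ₀ ρ₀ := Rc_ball hs.hρ.1 (by simp)
      have hχρ : χ ∈ Rc ρ₀ ρ₀ := ⟨hχR.1.trans_le hRρ, hχR.2.trans_le hRρ⟩
      have h1 := hs.low 0 h0 0 h0 χ hχρ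
      simp only [norm_zero, zero_add, ne_eq, OfNat.ofNat_ne_zero, not_false_eq_true, zero_pow]
        at h1
      have h2 := (hGc χ hχR).trans hCM
      have h3 : G χ - 4 * k * bet = (G χ - 2 * k * s 0 0 χ) +
          2 * k * (s 0 0 χ - (2 * bet - χ ^ 2 / (4 * π))) - 2 * k * (χ ^ 2 / (4 * π)) := by ring
      rw [h3]
      have h4 : ‖(2 : ℂ) * k * (s 0 0 χ - (2 * bet - χ ^ 2 / (4 * π)))‖ ≤ 2 * (C * q ^ 4) / k := by
        rw [norm_mul, norm_mul, Complex.norm_natCast, Complex.norm_ofNat]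
        have h5 : ‖χ‖ ^ 4 * k * k ≤ q ^ 4 := by
          have h6 : (‖χ‖ * k) ^ 4 ≤ q ^ 4 := by gcongr
          have h7 : ‖χ‖ ^ 4 * k * k * 1 ≤ ‖χ‖ ^ 4 * k * k * (k * k) := by
            gcongr
            exact K1.trans (le_mul_of_one_le_left hk0.le K1)
          calc ‖χ‖ ^ 4 * k * k ≤ ‖χ‖ ^ 4 * k * k * (k * k) := by linarith
            _ = (‖χ‖ * k) ^ 4 := by ring
            _ ≤ _ := h6
        rw [le_div_iff₀ hk0]
        calc 2 * (k : ℝ) * ‖s 0 0 χ - (2 * bet - χ ^ 2 / (4 * π))‖ * k ≤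
            2 * (k : ℝ) * (C * ‖χ‖ ^ 4) * k := by gcongr
          _ = 2 * (C * (‖χ‖ ^ 4 * k * k)) := by ring
          _ ≤ _ := by gcongr
      have h5 : ‖(2 : ℂ) * k * (χ ^ 2 / (4 * π))‖ ≤ 2 * q ^ 2 / k := by
        rw [norm_mul, norm_mul, Complex.norm_natCast, Complex.norm_ofNat, norm_div, norm_pow,
          norm_mul, Complex.norm_real, Real.norm_eq_abs, abs_of_pos (by linarith : (0:ℝ) < π),
          Complex.norm_ofNat]
        rw [le_div_iff₀ hk0]
        have h6 : ‖χ‖ ^ 2 / (4 * π) ≤ ‖χ‖ ^ 2 := by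
          apply div_le_self (by positivity)
          linarith
        have h7 : (‖χ‖ * k) ^ 2 ≤ q ^ 2 := by gcongr
        calc 2 * (k : ℝ) * (‖χ‖ ^ 2 / (4 * π)) * k ≤ 2 * (k : ℝ) * (‖χ‖ ^ 2) * k := by gcongr
          _ = 2 * (‖χ‖ * k) ^ 2 := by ring
          _ ≤ _ := by gcongr
      calc _ ≤ ‖G χ - 2 * k * s 0 0 χ‖ + ‖(2 : ℂ) * k * (s 0 0 χ - (2 * bet - χ ^ 2 / (4 * π)))‖ +
            ‖(2 : ℂ) * k * (χ ^ 2 / (4 * π))‖ :=
          (norm_sub_le _ _).trans (by gcongr; exact norm_add_le _ _)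
        _ ≤ δ / 2 * k + 2 * (C * q ^ 4) / k + 2 * q ^ 2 / k := by gcongr
        _ = _ := by ring
    have e4 : V = (Complex.I * m * χ ^ 2 / (2 * π)).re + (Complex.I * χ).re +
        (G χ - 4 * k * bet).re + 4 * k * bet := by
      rw [hV, Complex.add_re, Complex.add_re, Complex.sub_re]
      have : (4 * (k : ℂ) * (bet : ℂ)).re = 4 * k * bet := by
        have : (4 * (k : ℂ) * (bet : ℂ)) = ((4 * k * bet : ℝ) : ℂ) := by push_cast; rfl
        rw [this, Complex.ofReal_re]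
      rw [this]
      ring
    have f1 := (abs_le.1 ((Complex.abs_re_le_norm _).trans e1)).1
    have f2 := (abs_le.1 ((Complex.abs_re_le_norm _).trans e2)).1
    have f3 := (abs_le.1 ((Complex.abs_re_le_norm _).trans e3)).1
    have e5 : Cv / k = (q + B₂ * q ^ 2) / k + q / k + 2 * (q ^ 2 + C * q ^ 4) / k := by
      rw [hCv]; ring
    rw [e4, e5]
    linarith
  have hCvk : Cv / k ≤ 1 / 10 := by
    rw [div_le_iff₀ hk0]; linarith
  have hCvk' : Cv / k ≤ Cv := div_le_self hCv0.le K1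
  have hVlo2 : 157 / 100 * k + 1 / 200 ≤ V := by
    have h1 : 4 * k * (1 / 2) ≤ 4 * k * bet := by gcongr
    have h2 : δ / 2 * k ≤ 1 / 192 * k := mul_le_mul_of_nonneg_right (by linarith) hk0.le
    linarith
  have hVpos : 0 < V := by
    have : (0 : ℝ) < 157 / 100 * k := by positivity
    linarith
  -- the far part
  have hh1 : χ.im ≤ q / k := (Complex.im_le_norm χ).trans hχn
  have hh2 : χ.im ≤ 1 / 10 := hh1.trans hqk10'.le
  have hCgh : Cg * χ.im ≤ δ := by
    have h1 : Cg * χ.im ≤ Cg * (q / k) := by gcongr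
    refine h1.trans ?_
    rw [← mul_div_assoc, div_le_iff₀ hk0]
    rw [div_le_iff₀ hδ0] at K5
    linarith
  have hfar : ∀ x y : ℝ, R / 2 ≤ |x| → |x| ≤ 2 * π / 3 → 0 ≤ y → y ≤ χ.im →
      Wt m x y + 2 * k * max (s0 (x + y * Complex.I)).re bet ≤ V - 1 := by
    intro x y hx1 hx2 hy0 hy1
    have h1 := hCg2 x y hx2 hy0 (by linarith)
    have h2 : 2 * δ ≤ x ^ 2 / (4 * π) := by
      have : (R / 2) ^ 2 ≤ x ^ 2 := by
        rw [← sq_abs x]; gcongr
      have h3 : 2 * δ = (R / 2) ^ 2 / (4 * π) := by rw [hδ]; ring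
      rw [h3]
      gcongr
    have h3 : Cg * y ≤ Cg * χ.im := by gcongr
    have h4 : (s0 (x + y * Complex.I)).re ≤ 2 * bet - δ := by linarith
    have h5 : max (s0 (x + y * Complex.I)).re bet ≤ 2 * bet - δ := max_le h4 (by linarith)
    have h6 : Wt m x y ≤ Cm := by
      unfold Wt
      have h7 : -((m : ℝ) * x * y) / π ≤ |(m : ℝ)| * y * (|x| / π) := by
        have : -((m : ℝ) * x * y) / π ≤ |(m : ℝ) * x * y| / π := by
          gcongr; exact neg_le_abs _
        refine this.trans (le_of_eq ?_)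
        rw [abs_mul, abs_mul, abs_of_nonneg hy0]
        ring
      have h8 : |x| / π ≤ 1 := by
        rw [div_le_one (by linarith)]; linarith
      have h9 : |(m : ℝ)| * y ≤ Cm := by
        refine le_trans ?_ hmh
        gcongr
      have h10 : |(m : ℝ)| * y * (|x| / π) ≤ |(m : ℝ)| * y * 1 := by
        gcongr
      linarith
    have h7 : 2 * k * max (s0 (x + y * Complex.I)).re bet ≤ 2 * k * (2 * bet - δ) := by gcongr
    have h8 : Cm + Cv + 1 ≤ k * δ := by rwa [div_le_iff₀ hδ0] at K4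
    have h9 : 0 < k * δ := by positivity
    have h10 : 2 * k * (2 * bet - δ) = 4 * k * bet - 2 * (k * δ) := by ring
    have h11 : δ / 2 * k = k * δ / 2 := by ring
    rw [h10] at h7
    rw [h11] at hVlo
    linarith
  -- the contour
  set r : ℝ := min (χ.im / 4) (R / 8) with hr
  have hr0 : 0 < r := by positivity
  have r1 : r ≤ χ.im / 4 := min_le_left _ _
  have r2 : r ≤ R / 8 := min_le_right _ _
  set κ : ℝ := min 1 (c₂ * k * r ^ 2 / 8) with hκ
  have hκ0 : 0 < κ := by positivity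
  have κ1 : κ ≤ 1 := min_le_left _ _
  have κ2 : κ ≤ c₂ * k * r ^ 2 / 8 := min_le_right _ _
  set KK : Set ℂ := (Set.Icc (-(R / 2)) (R / 2)) ×ℂ (Set.Icc (χ.im / 2) (3 * χ.im / 2)) with hKK
  have hKKc : IsCompact KK := (isCompact_Icc).reProdIm isCompact_Icc
  have hKKR : KK ⊆ Rc R R := by
    intro w hw
    have h1 := hw.1
    have h2 := hw.2
    rw [Set.mem_preimage, Set.mem_Icc] at h1 h2
    constructor
    · rw [abs_lt]; constructor <;> linarith [h1.1, h1.2]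
    · rw [abs_lt]; constructor <;> linarith [h2.1, h2.2]
  have hKKi : ∀ w ∈ KK, 0 < w.im := by
    intro w hw
    have h2 := hw.2
    rw [Set.mem_preimage, Set.mem_Icc] at h2
    linarith [h2.1]
  obtain ⟨B, hB⟩ := hKKc.exists_bound_of_continuousOn (hGd.continuousOn.mono hKKR)
  obtain ⟨hMWX, A, hux, hA0⟩ := hXX KK hKKc hKKR hKKi
  have hMWT : MW (fun N => TV N ls) G KK := mw_trv hB hMWX
  have hχre : |χ.re| ≤ R / 8 := (Complex.abs_re_le_norm χ).trans (hχn.trans hqk8)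
  have hboxR : ∀ w ∈ Rc r r, w + χ ∈ KK := by
    intro w hw
    have h1 := abs_lt.1 hw.1
    have h2 := abs_lt.1 hw.2
    have h3 := abs_le.1 hχre
    constructor
    · rw [Set.mem_preimage, Set.mem_Icc, Complex.add_re]
      constructor <;> linarith
    · rw [Set.mem_preimage, Set.mem_Icc, Complex.add_im]
      constructor <;> linarith
  have hbigN : ∀ᶠ N : ℕ in atTop, 9 / 5 ≤ N * (κ / 4) := by
    have h1 : ∀ᶠ N : ℕ in atTop, (9 / 5) / (κ / 4) ≤ (N : ℝ) :=
      tendsto_natCast_atTop_atTop.eventually_ge_atTop _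
    filter_upwards [h1] with N h1
    rwa [div_le_iff₀ (by positivity)] at h1
  have hNim : ∀ᶠ N : ℕ in atTop, 1 / (N : ℝ) ≤ χ.im := by
    have := tendsto_one_div_atTop_nhds_zero_nat (𝕜 := ℝ)
    exact (this.eventually_lt_const (u := χ.im) hχ0).mono fun N hN => hN.le
  have hsh1 : deriv (fun w => G (w + χ)) = fun w => deriv G (w + χ) := by
    funext w
    exact deriv_comp_add_const _ _ _
  have hsh2 : deriv (deriv (fun w => G (w + χ))) = fun w => deriv (deriv G) (w + χ) := by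
    rw [hsh1]
    funext w
    exact deriv_comp_add_const _ _ _
  have hGo := gxo_tv hGd hlen hKKR hboxR hux hA0
  obtain ⟨y, hy0, hy⟩ := hCI m χ 0 r (c₂ * k) (κ / 2) V (fun N => TV N ls) (fun w => G (w + χ)) _ hr0
    (by linarith) (by linarith) (by linarith) (by positivity) (by positivity)
    (fun N => TV_diff N ls)
    (fun N w => TV_congr N ls (Complex.cos_neg w))
    (fun w hw => (((hGd _ (hKKR (hboxR w hw))).differentiableAt
      ((Rc_open R).mem_nhds (hKKR (hboxR w hw)))).hasDerivAt.comp_add_const w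
        χ).differentiableAt.differentiableWithinAt)
    (fun w hw => by
      rw [hsh2]
      exact (hGb _ (hKKR (hboxR w hw))).2.1)
    (mw_shift hMWT hboxR)
    hGo
    (Rc_ball (by linarith : (0:ℝ) < r / 4) (by simp))
    (by
      rw [hsh1]
      simp only [zero_add, add_zero]
      exact hχc)
    (by
      rw [hV]
      simp only [zero_add, add_zero])
    (by
      filter_upwards [hFA ls m hls0 hsub (κ / 4) (by positivity), hNim, hbigN,
        hMWT (κ / 4) (by positivity)] with N h1 hNim hbig hMW' x hx1 hx2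
      rw [add_zero]
      rcases le_total |x| (R / 2) with hx | hx
      · have hxK : (x : ℂ) + χ.im * Complex.I ∈ KK := by
          constructor
          · rw [Set.mem_preimage, Set.mem_Icc, xy_re]; exact abs_le.1 hx
          · rw [Set.mem_preimage, Set.mem_Icc, xy_im]; constructor <;> linarith
        obtain ⟨hne, hlog⟩ := hMW' _ hxK
        have h2 : ‖TV N ls (x + χ.im * Complex.I)‖ ≤
            Real.exp (N * ((G (x + χ.im * Complex.I)).re + κ / 4)) := by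
          rw [← Real.log_le_iff_le_exp (norm_pos_iff.2 hne)]
          have := (abs_le.1 hlog).2
          linarith
        have h3 := line_le (m := m) hGd (fun w hw => (hGb w hw).2.1) hχR hχc x (by linarith)
        rw [← hV] at h3
        have h4 : r / 2 ≤ |x - χ.re| := hx2
        have h5 : (r / 2) ^ 2 ≤ (x - χ.re) ^ 2 := by
          rw [← sq_abs (x - χ.re)]; gcongr
        have h6 : c₂ * k / 2 * (r / 2) ^ 2 ≤ c₂ * k / 2 * (x - χ.re) ^ 2 := by gcongr
        have h7 : c₂ * k / 2 * (r / 2) ^ 2 = c₂ * k * r ^ 2 / 8 := by ring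
        exact prodV_bd (m := m) (T := V) (κ := κ) hχ0.le (by linarith) h2 (by linarith) hbig
      · have h2 := (h1.2 (x + χ.im * Complex.I) (by rwa [xy_re]) (by
          rw [xy_im, abs_of_pos hχ0]; linarith) (gap_of_im (by
          rw [xy_im, abs_of_pos hχ0]; exact hNim))).1
        rw [hlen] at h2
        have h3 := hfar x χ.im hx hx1 hχ0.le le_rfl
        exact prodV_bd (m := m) (T := V) (κ := κ) hχ0.le (by linarith) h2 (by linarith) hbig)
    (by
      filter_upwards [hFA ls m hls0 hsub (κ / 4) (by positivity), hbigN, eventually_ge_atTop 1000] with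
        N h1 hbig hN y hy0 hy1 σ' hσ'
      rw [add_zero] at hy1
      obtain ⟨hRN1, hRN2⟩ := RN_bd hN
      have hRNp : 0 < RN N := by linarith
      have hx : |σ' * RN N| = RN N := by rw [abs_mul, hσ', one_mul, abs_of_pos hRNp]
      have hcast : ((σ' : ℂ) * (RN N : ℂ)) = ((σ' * RN N : ℝ) : ℂ) := by push_cast; rfl
      have hgap := gap_side (N := N) (by omega) y σ' hσ'
      rw [hcast] at hgap ⊢
      have h2 := (h1.2 ((σ' * RN N : ℝ) + y * Complex.I) (by rw [xy_re, hx]; exact hRN2) (by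
        rw [xy_im, abs_of_nonneg hy0]; linarith) hgap).1
      rw [hlen] at h2
      have h3 := hfar (σ' * RN N) y (by rw [hx]; linarith) (by rw [hx]; exact hRN2) hy0 hy1
      exact prodV_bd (m := m) (T := V) (κ := κ) hy0 (by linarith) h2 (by linarith) hbig)
  simp only [zero_add, add_zero] at hy
  set Vc : ℂ := Complex.I * m * χ ^ 2 / (2 * π) + Complex.I * χ + G χ with hVc
  have hRV : RVal3 s (2 * k) (cw (wl ls)) m (z χ) χ + ∑ j ∈ range (2 * k), F j (z χ j) = Vc := by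
    rw [hVc, hz3]
    unfold RVal3
    have h1 : ∑ j ∈ range (2 * k), (Complex.I * cw (wl ls) j * z χ j ^ 2 / (4 * π) +
        Complex.I * z χ j + F j (z χ j) + s (z χ j) (z χ ((j + 1) % (2 * k))) χ) =
        ∑ j ∈ range (2 * k), (Complex.I * cw (wl ls) j * z χ j ^ 2 / (4 * π) +
        Complex.I * z χ j + s (z χ j) (z χ ((j + 1) % (2 * k))) χ) +
        ∑ j ∈ range (2 * k), F j (z χ j) := by
      rw [← sum_add_distrib]
      exact sum_congr rfl fun j _ => by ring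
    rw [h1]
    ring
  have hS : EXY (fun N => ES N ls m) Vc (fun j => 1 * y j) := by
    refine exy_near 1 (show (0 : ℝ) < 1 / 800 by norm_num) hy ?_
    filter_upwards [restV_bd hlen hls0 m hsub hFA hTH hVlo2] with N hN
    rw [one_mul]
    exact hN
  refine ⟨z χ, χ, fun j => 1 * y j, lt_of_le_of_lt hχn hqk10',
    ⟨⟨hχR.1.trans_le hRρ, hχR.2.trans_le hRρ⟩, hχ0, hχn.trans hqk10'.le,
      fun j hj => ⟨(hz1 j hj).1, (hz1 j hj).2.2⟩, ?_⟩, fun j hj => (hz1 j hj).2.1,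
    by show (1 : ℂ) * y 0 ≠ 0; rw [one_mul]; exact hy0, ?_⟩
  · rw [← hz2]
    exact hχc
  · rw [hRV]
    exact hS

theorem mxnf : S_MXNF := by
  have hRHO : S_RHO := Pool.Agent.Y105.CB.rho
  have hTB0 : S_TB0 := Pool.Agent.Y288.CB.tb0
  have hRY : S_RHOY := Pool.Agent.Y317.CB.rhoy
  have hTY : S_TBY := Pool.Agent.Y46.CB.tby
  have hS0 : S_S0P := Pool.Agent.Y710.CG.s0p
  have hKB : KBZc := Pool.Agent.Y68.CG.kbz Pool.Agent.Y238.CG.pf Pool.Agent.Y125.CG.cnb
    Pool.Agent.Y991.CG.lmi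
  have hb := Pool.Agent.Y761.CG.bet_ge
  exact mxnf_of (by linarith)
    (favc_of Pool.Agent.Y48.DR.t_FAZV hKB (Pool.Agent.Y37.CG.krz hTB0 hTY hRHO hRY)
      (Pool.Agent.Y252.CG.kaz hTB0 hRHO Pool.Agent.Y252.CG.rhoa) Pool.Agent.Y48.DR.t_TFBV
      Pool.Agent.Y899.DR.t_KFFV Pool.Agent.Y899.DR.t_KFV hS0)
    (thvc_of Pool.Agent.Y319.DR.thzv hTB0 hRHO Pool.Agent.Y79.CG.rhot)
    Pool.Agent.Y472.CJ.cizx hS0

end Pool.Agent.Y785.DX
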