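import Pool.Agent.Y481.DX.Defs
import Pool.Agent.Y529.DR.V2
import Pool.Agent.Y710.CJ.MXZ
import Pool.Agent.Y25.CG.CTZ
import Pool.Agent.Y641.CG.Main
import Pool.Agent.Y472.CJ.Cizx
import Pool.Agent.Y48.DR.FAZV
import Pool.Agent.Y48.DR.TFBV
import Pool.Agent.Y319.DR.Thzv
import Pool.Agent.Y899.DR.KFV
import Pool.Agent.Y68.CG.KBZ
import Pool.Agent.Y238.CG.PF
import Pool.Agent.Y125.CG.Cnb
import Pool.Agent.Y991.CG.LMI
import Pool.Agent.Y37.CG.Krz
import Pool.Agent.Y252.CG.Kaz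
import Pool.Agent.Y252.CG.Rhoa
import Pool.Agent.Y710.CG.S0P
import Pool.Agent.Y288.CB.TB0
import Pool.Agent.Y105.CB.Rho
import Pool.Agent.Y317.CB.Rhoy
import Pool.Agent.Y46.CB.TBY
import Pool.Agent.Y79.CG.Rhot2
import Pool.Agent.Y761.CG.Csz

/-!
# DX-MXZF: the expansion, `k` and `m` fixed
-/

set_option autoImplicit false

namespace Pool.Agent.Y785.DX

open Finset Filter Topology Metric
open Pool.Agent.W711.HT hiding XX
open Pool.Agent.Y472 Pool.Agent.Y481.DR Pool.Agent.Y481.DX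
open Pool.Agent.Y833.CB Pool.Agent.Y421.CG
open Pool.Agent.Y529.DR
open Pool.Agent.Y852.PH.MX (exy_near pow_split twopi_ne)
open Pool.Agent.Y710.CJ (ux_near)
open Pool.Agent.Y481 (cw)
open Pool.Agent.W719.AX (UX EXY)
open scoped Real

theorem mxzf_of (hbet : 0 < bet)
    (hKF : S_KFV) (hFA : FAVc) (hTH : THVc) (hCI : S_CIZX) (hCS : CSZc) (hCT : CTZc)
    (hS0 : S_S0P) (hSD : ∀ χ₀ : ℂ, Zr χ₀ → ∃ ρ₀ c C : ℝ, SDZ χ₀ ρ₀ c C szz dzz) : S_MXZF := by
  intro hXL
  intro k m hk hm hkm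
  have hπ := Real.pi_gt_three
  have hπ2 := Real.pi_lt_d2
  obtain ⟨χ₀, hcr⟩ := hCS k m hk hm hkm
  obtain ⟨κ₀, δ₀, hκ0, hδ0, HC1, HC2⟩ := hCT k m χ₀ hk hm hcr
  obtain ⟨hZr, hcrit, hV1, hV2, hbs⟩ := hcr
  obtain ⟨ρ₀, c, C, hs⟩ := hSD χ₀ hZr
  refine ⟨χ₀, ρ₀, c, C, hZr, hs, fun R₀ B₀ ε hR₀ hB₀ hε => ?_⟩
  have hk0 : (1 : ℝ) ≤ k := by exact_mod_cast hk
  obtain ⟨R₁, c', hR1, hR11, hRρ, hRR₀, hc', B, C', M1, hB, hC', hM1, HX⟩ :=
    hXL χ₀ ρ₀ c C hZr hbs.le hs R₀ B₀ hR₀ hB₀ k hk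
  obtain ⟨hre1, hre2, him1, him2⟩ := hZr
  have hρ0 := hs.hρ.1
  have h00 : (0 : ℂ) ∈ Rc ρ₀ ρ₀ := by
    constructor <;> simpa using hρ0
  set S : ℝ := (s0 χ₀).re with hS
  set σ : ℝ := S - bet with hσ
  have hσ0 : 0 < σ := by rw [hσ]; linarith
  have habs : |χ₀.re| ≤ π / 2 := abs_le.2 ⟨by linarith, by linarith⟩
  -- the leading exponent near `χ₀`
  have hds : ∀ w : ℂ, |w.re| < 1 → HasDerivAt (fun w => s0 (w + χ₀)) (-(1 / π) * gh (w + χ₀)) w := by
    intro w hw
    have h1 : |(w + χ₀).re| < π := by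
      rw [Complex.add_re]
      have := abs_add_le w.re χ₀.re
      linarith
    exact ((hS0.1 (w + χ₀) h1).1).comp_add_const w χ₀
  set G0 : ℂ → ℂ := fun w => 2 * k * s0 (w + χ₀) with hG0
  have hdG0 : ∀ w : ℂ, |w.re| < 1 → HasDerivAt G0 (2 * k * (-(1 / π) * gh (w + χ₀))) w :=
    fun w hw => (hds w hw).const_mul _
  have hG00 : G0 0 = 2 * k * s0 χ₀ := by simp only [hG0]; rw [zero_add]
  have hdG00 : deriv G0 0 = -(2 * k / π * gh χ₀) := by
    rw [(hdG0 0 (by simp)).deriv, zero_add]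
    ring
  -- the leading critical function
  set H : ℂ → ℂ := fun w => Complex.I * m * (χ₀ + w) ^ 2 / (2 * π) + Complex.I * (χ₀ + w) + G0 w with hH
  have hH0 : (H 0).re = Vz k m χ₀ := by
    simp only [hH]
    rw [hG00, add_zero]
    rfl
  have hHc : ContinuousAt H 0 := by
    have h1 : ContinuousAt G0 0 := (hdG0 0 (by simp)).continuousAt
    have h2 : ContinuousAt (fun w : ℂ => Complex.I * m * (χ₀ + w) ^ 2 / (2 * π) +
        Complex.I * (χ₀ + w)) 0 := by fun_prop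
    exact h2.add h1
  have hcontS : ∀ η : ℝ, 0 < η → ∃ r : ℝ, 0 < r ∧ ∀ w ∈ Rc r r, ‖s0 (w + χ₀) - s0 χ₀‖ ≤ η := by
    intro η hη
    have h1 := (hds 0 (by simp)).continuousAt
    rw [Metric.continuousAt_iff] at h1
    obtain ⟨δ, hδ, h2⟩ := h1 η hη
    refine ⟨δ / 2, by positivity, fun w hw => ?_⟩
    have h3 : ‖w‖ < δ := by
      have := Complex.norm_le_abs_re_add_abs_im w
      linarith [hw.1, hw.2]
    have h4 := h2 (x := w) (by rwa [dist_zero_right])
    rw [dist_eq_norm, zero_add] at h4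
    exact h4.le
  have hcontH : ∀ η : ℝ, 0 < η → ∃ r : ℝ, 0 < r ∧ ∀ w : ℂ, ‖w‖ ≤ r → ‖H w - H 0‖ ≤ η := by
    intro η hη
    rw [Metric.continuousAt_iff] at hHc
    obtain ⟨δ, hδ, h2⟩ := hHc η hη
    refine ⟨δ / 2, by positivity, fun w hw => ?_⟩
    have h4 := h2 (x := w) (by rw [dist_zero_right]; linarith)
    rw [dist_eq_norm] at h4
    exact h4.le
  obtain ⟨Ra, hRa, hRa2⟩ := hcontS (σ / (16 * k)) (by positivity)
  set R : ℝ := min R₁ (min (χ₀.im / 2) (min Ra (min (1 / 4) ((9 / 5 - χ₀.im) / 2)))) with hR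
  have h95 : 0 < 9 / 5 - χ₀.im := by linarith
  have hR0 : 0 < R := by positivity
  have r1 : R ≤ R₁ := min_le_left _ _
  have r2 : R ≤ χ₀.im / 2 := (min_le_right _ _).trans (min_le_left _ _)
  have r3 : R ≤ Ra := (min_le_right _ _).trans ((min_le_right _ _).trans (min_le_left _ _))
  have r4 : R ≤ 1 / 4 := (min_le_right _ _).trans ((min_le_right _ _).trans
    ((min_le_right _ _).trans (min_le_left _ _)))
  have r5 : R ≤ (9 / 5 - χ₀.im) / 2 := (min_le_right _ _).trans ((min_le_right _ _).trans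
    ((min_le_right _ _).trans (min_le_right _ _)))
  obtain ⟨κ₁, δ₁, hκ1, hδ1, HC1⟩ := HC1 (R / 2) (by positivity)
  set κ : ℝ := min κ₀ κ₁ with hκ
  have hκp : 0 < κ := by positivity
  have k1 : κ ≤ κ₀ := min_le_left _ _
  have k2 : κ ≤ κ₁ := min_le_right _ _
  set v : ℝ := min (κ / 8) (1 / 200) with hv
  have hv0 : 0 < v := by positivity
  have v1 : v ≤ κ / 8 := min_le_left _ _
  have v2 : v ≤ 1 / 200 := min_le_right _ _
  obtain ⟨Rb, hRb, hRb2⟩ := hcontH (v / 2) (by positivity)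
  set r : ℝ := min (R / 8) (min δ₁ (min δ₀ (min Rb ε))) with hr
  have hr0 : 0 < r := by positivity
  have s1 : r ≤ R / 8 := min_le_left _ _
  have s2 : r ≤ δ₁ := (min_le_right _ _).trans (min_le_left _ _)
  have s3 : r ≤ δ₀ := (min_le_right _ _).trans ((min_le_right _ _).trans (min_le_left _ _))
  have s4 : r ≤ Rb := (min_le_right _ _).trans ((min_le_right _ _).trans
    ((min_le_right _ _).trans (min_le_left _ _)))
  have s5 : r ≤ ε := (min_le_right _ _).trans ((min_le_right _ _).trans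
    ((min_le_right _ _).trans (min_le_right _ _)))
  set η : ℝ := min (σ / 16) (min (v / 2) (min ε (c' * r * R / 8))) with hη
  have hη0 : 0 < η := by positivity
  have e1 : η ≤ σ / 16 := min_le_left _ _
  have e2 : η ≤ v / 2 := (min_le_right _ _).trans (min_le_left _ _)
  have e3 : η ≤ ε := (min_le_right _ _).trans ((min_le_right _ _).trans (min_le_left _ _))
  have e4 : η ≤ c' * r * R / 8 := (min_le_right _ _).trans ((min_le_right _ _).trans (min_le_right _ _))
  set M : ℝ := max M1 (C' / η) with hM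
  have m1 : M1 ≤ M := le_max_left _ _
  have m2 : C' / η ≤ M := le_max_right _ _
  have hM0 : 0 < M := lt_of_lt_of_le hM1 m1
  have hCM : C' / M ≤ η := by
    rw [div_le_iff₀ hM0]
    rw [div_le_iff₀ hη0] at m2
    linarith
  refine ⟨M, fun ls F An hlen hDG hls => ?_⟩
  have hSub : SubL ls := subl_of fun j hj => (hDG j (by rwa [hlen] at hj)).dg.sub
  have hAn : AnL ls := anl_of hSub
  have hls0 : ls ≠ [] := by
    rintro rfl
    simp at hlen
    omega
  obtain ⟨G, z, A, hGd, hGb, hMW, hGX, hz, hclose⟩ := HX ls F An hlen hDG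
    (fun j hj => m1.trans (hls j hj))
  obtain ⟨hzs, hGc⟩ := hclose M hls hM0
  have hsub : Rc R R ⊆ Rc R₁ R₁ := fun w hw => ⟨lt_of_lt_of_le hw.1 r1, lt_of_lt_of_le hw.2 r1⟩
  have hsubρ : Rc R R ⊆ Rc ρ₀ ρ₀ := fun w hw =>
    ⟨lt_of_lt_of_le (hsub hw).1 hRρ, lt_of_lt_of_le (hsub hw).2 hRρ⟩
  have hopen : IsOpen (Rc R R) := by
    have h1 : Rc R R = {z : ℂ | |z.re| < R} ∩ {z : ℂ | |z.im| < R} := rfl
    rw [h1]
    exact (isOpen_lt (Complex.continuous_re.abs) continuous_const).inter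
      (isOpen_lt (Complex.continuous_im.abs) continuous_const)
  have hGd' : DifferentiableOn ℂ G (Rc R R) := hGd.mono hsub
  have hG0d : DifferentiableOn ℂ G0 (Rc R R) := fun w hw =>
    (hdG0 w (by linarith [hw.1])).differentiableAt.differentiableWithinAt
  have hcl : ∀ w ∈ Rc R R, ‖G w - G0 w‖ ≤ η := by
    intro w hw
    have h1 : w + χ₀ ∈ Rz χ₀ ρ₀ := by
      show w + χ₀ - χ₀ ∈ Rc ρ₀ ρ₀
      rw [add_sub_cancel_right]
      exact hsubρ hw
    have h2 := hGc w (hsub hw)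
    rw [hs.zero _ h1] at h2
    exact h2.trans hCM
  -- the critical point
  have hd1 := deriv_close hR0 hGd' hG0d hcl
  rw [hdG00] at hd1
  have hdd : DifferentiableOn ℂ (deriv G) (Rc R R) := hGd'.deriv hopen
  have hgd : ∀ w ∈ Rc R R, HasDerivAt (fun w => Complex.I * m * (χ₀ + w) / π + Complex.I + deriv G w)
      (Complex.I * m / π + deriv (deriv G) w) w := by
    intro w hw
    have h1 : HasDerivAt (fun w : ℂ => Complex.I * m * (χ₀ + w) / π + Complex.I)
        (Complex.I * m / π) w := by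
      have := ((((hasDerivAt_id w).const_add χ₀).const_mul (Complex.I * m)).div_const (π : ℂ)).add_const
        Complex.I
      simpa using this
    exact h1.add ((hdd w hw).differentiableAt (hopen.mem_nhds hw)).hasDerivAt
  obtain ⟨χ, hχn, hχc⟩ := zero_near
    (g := fun w => Complex.I * m * (χ₀ + w) / π + Complex.I + deriv G w) (R := R) (r := r) (c := c')
    hr0 (by linarith) hc' (fun w hw => (hgd w hw).differentiableAt.differentiableWithinAt)
    (fun w hw => by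
      rw [(hgd w hw).deriv, Complex.add_re]
      have h1 : (Complex.I * m / π).re = 0 := by
        have : (Complex.I * m / π : ℂ) = (((m : ℝ) / π : ℝ) : ℂ) * Complex.I := by
          push_cast
          ring
        rw [this]
        simp
      rw [h1, zero_add]
      exact (hGb w (hsub hw)).2)
    (by
      have h1 : Complex.I * m * (χ₀ + 0) / π + Complex.I + deriv G 0 =
          deriv G 0 - -(2 * k / π * gh χ₀) := by
        rw [add_zero, hcrit]
        ring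
      rw [h1]
      refine lt_of_le_of_lt hd1 ?_
      rw [div_lt_iff₀ (by positivity)]
      have : 0 < c' * r * R := by positivity
      linarith)
  have hχ4 : χ ∈ Rc (R / 4) (R / 4) :=
    ⟨((Complex.abs_re_le_norm χ).trans hχn).trans_lt (by linarith),
      ((Complex.abs_im_le_norm χ).trans hχn).trans_lt (by linarith)⟩
  have hχR : χ ∈ Rc R R := ⟨by linarith [hχ4.1], by linarith [hχ4.2]⟩
  have hχR1 : χ ∈ Rc R₁ R₁ := hsub hχR
  obtain ⟨hz1, hz2, hz3⟩ := hz χ hχR1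
  suffices hsuff : ∃ y : ℕ → ℂ, y 0 ≠ 0 ∧
      EXY (fun N => ES N ls m) (RVal3 szz (2 * k) (cw (wl ls)) m (z χ) (χ + χ₀) +
        ∑ j ∈ range (2 * k), F j (z χ j)) y by
    obtain ⟨y, hy0, hy⟩ := hsuff
    refine ⟨z χ, χ + χ₀, y, ⟨?_, fun j hj => ?_, ?_⟩, fun j hj => ⟨?_, ?_⟩, ?_, hy0, hy⟩
    · show χ + χ₀ - χ₀ ∈ Rc ρ₀ ρ₀
      rw [add_sub_cancel_right]
      exact hsubρ hχR
    · obtain ⟨a1, a2, a3, a4⟩ := hz1 j hj
      exact ⟨⟨by linarith [a1.1], by linarith [a1.2]⟩, a2, a3, a4⟩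
    · rw [← hz2, add_comm χ χ₀]
      exact hχc
    · obtain ⟨a1, -⟩ := hz1 j hj
      exact ⟨by linarith [a1.1], by linarith [a1.2]⟩
    · exact (hzs χ hχR1 j hj).trans (hCM.trans e3)
    · rw [add_sub_cancel_right]
      exact hχn.trans s5
  -- the growth rate
  set V : ℝ := (Complex.I * m * (χ₀ + χ) ^ 2 / (2 * π) + Complex.I * (χ₀ + χ) + G χ).re with hV
  have hVV : |V - Vz k m χ₀| ≤ v := by
    have h1 : V - Vz k m χ₀ = (H χ - H 0).re + (G χ - G0 χ).re := by
      rw [Complex.sub_re (H χ), hH0, hV]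
      simp only [hH, Complex.add_re, Complex.sub_re]
      ring
    rw [h1]
    have h2 := (Complex.abs_re_le_norm (H χ - H 0)).trans (hRb2 χ (hχn.trans s4))
    have h3 := (Complex.abs_re_le_norm (G χ - G0 χ)).trans ((hcl χ hχR).trans e2)
    exact (abs_add_le _ _).trans (by linarith)
  obtain ⟨hVl, hVu⟩ := abs_le.1 hVV
  have hVlo : 157 / 100 * k + 1 / 200 ≤ V := by
    have : (3 : ℝ) / 200 ≤ 3 / 200 * k := by linarith
    linarith
  have hVpos : 0 < V := by
    have : (0 : ℝ) < 157 / 100 * k := by positivity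
    linarith
  -- asymptotics near `χ₀`
  have hGlo : ∀ w ∈ Rc R R, 2 * k * S - 3 / 16 * σ ≤ (G w).re := by
    intro w hw
    have h1 := hcl w hw
    have h2 := hRa2 w ⟨lt_of_lt_of_le hw.1 r3, lt_of_lt_of_le hw.2 r3⟩
    have h3 := Complex.abs_re_le_norm (G w - G0 w)
    have h4 := Complex.abs_re_le_norm (s0 (w + χ₀) - s0 χ₀)
    rw [Complex.sub_re] at h3 h4
    have h5 := (abs_le.1 (h3.trans h1)).1
    have h6 := (abs_le.1 (h4.trans h2)).1
    have h7 : (G0 w).re = 2 * k * (s0 (w + χ₀)).re := by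
      simp only [hG0]
      have : (2 * (k : ℂ) * s0 (w + χ₀)) = ((2 * k : ℝ) : ℂ) * s0 (w + χ₀) := by push_cast; rfl
      rw [this, Complex.re_ofReal_mul]
    have h8 : 2 * k * (σ / (16 * k)) = σ / 8 := by field_simp; norm_num
    have h9 : 2 * (k : ℝ) * (-(σ / (16 * k))) ≤ 2 * k * ((s0 (w + χ₀)).re - (s0 χ₀).re) := by
      gcongr
    rw [← hS] at h9
    rw [h7] at h5
    linarith
  have hTm : ∀ᶠ N : ℕ in atTop, ∀ w ∈ Rc R R,
      ‖TV N ls (w + χ₀) - ((N : ℂ) / (2 * π)) ^ (2 * ls.length) * XV ls N (w + χ₀)‖ ≤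
        Real.exp (N * ((2 * k * S - 3 / 16 * σ) - σ / 4)) := by
    have hNim : ∀ᶠ N : ℕ in atTop, 1 / (N : ℝ) ≤ χ₀.im / 2 := by
      have := tendsto_one_div_atTop_nhds_zero_nat (𝕜 := ℝ)
      exact (this.eventually_lt_const (u := χ₀.im / 2) (by positivity)).mono fun N hN => hN.le
    filter_upwards [hFA ls m hls0 hSub (σ / 8) (by positivity), hNim, eventually_ge_atTop 2] with
      N h1 hNim hN w hw
    have h2 : (w + χ₀).re = w.re + χ₀.re := Complex.add_re _ _
    have h3 : (w + χ₀).im = w.im + χ₀.im := Complex.add_im _ _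
    have hwim := abs_lt.1 hw.2
    have hpos : 0 < w.im + χ₀.im := by linarith
    have h4 := (h1.2 (w + χ₀) (by
      rw [h2]
      have := abs_add_le w.re χ₀.re
      linarith [hw.1]) (by
      rw [h3, abs_of_pos hpos]
      linarith) (gap_of_im (by
      rw [h3, abs_of_pos hpos]
      linarith))).2
    rw [hKF N ls _ hN hls0 hAn, hlen] at h4
    rw [hlen]
    refine h4.trans (Real.exp_le_exp.2 (mul_le_mul_of_nonneg_left ?_ (Nat.cast_nonneg N)))
    have h5 := hRa2 w ⟨lt_of_lt_of_le hw.1 r3, lt_of_lt_of_le hw.2 r3⟩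
    have h6 := Complex.abs_re_le_norm (s0 (w + χ₀) - s0 χ₀)
    rw [Complex.sub_re] at h6
    have h7 := (abs_le.1 (h6.trans h5)).2
    have h8 : 0 < σ / (16 * k) := by positivity
    have h9 : max (s0 (w + χ₀)).re bet ≤ S + σ / (16 * k) := by
      refine max_le ?_ ?_
      · rw [← hS] at h7
        linarith
      · linarith
    have h10 : (2 * (k : ℝ) - 1) * max (s0 (w + χ₀)).re bet ≤ (2 * k - 1) * (S + σ / (16 * k)) := by
      refine mul_le_mul_of_nonneg_left h9 ?_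
      linarith
    have h11 : 2 * k * (σ / (16 * k)) = σ / 8 := by field_simp; norm_num
    have h12 : (2 * (k : ℝ) - 1) * (S + σ / (16 * k)) =
      2 * k * S - S + 2 * k * (σ / (16 * k)) - σ / (16 * k) := by ring
    rw [h12, h11] at h10
    linarith
  have hMWT : MW (fun N w => TV N ls (w + χ₀)) G (Rc R R) := by
    refine MW_tf (X := fun N χ => XV ls N (χ + χ₀)) (2 * ls.length)
      (L := 2 * k * S - 3 / 16 * σ) (δ := σ / 4) (by positivity) ?_ hGlo hTm
    intro δ hδ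
    filter_upwards [hMW δ hδ] with N hN w hw
    exact hN w (hsub hw)
  have hGXT : GXo (Rc R R) (fun N w => TV N ls (w + χ₀)) G
      (fun j w => (1 / (2 * π : ℂ) ^ (2 * k)) * A j w) := by
    refine ⟨?_, fun j => ((hGX.an j).mono hsub).const_mul _, fun w hw =>
      mul_ne_zero (twopi_ne k) (hGX.nz w (hsub hw))⟩
    refine ux_near (X := fun N w => (N : ℂ) ^ (2 * k) * XV ls N (w + χ₀)) (1 / (2 * π : ℂ) ^ (2 * k))
      (L := 2 * k * S - 3 / 16 * σ) (δ := σ / 4) (by positivity) ?_ hGlo ?_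
    · intro K
      obtain ⟨CK, hCK⟩ := hGX.ux K
      refine ⟨CK, ?_⟩
      filter_upwards [hCK] with N hN w hw
      exact hN w (hsub hw)
    · filter_upwards [hTm] with N hN w hw
      have h1 := hN w hw
      rw [hlen, pow_split] at h1
      exact h1
  -- the contour
  have hbigN : ∀ᶠ N : ℕ in atTop, 9 / 5 ≤ N * (κ / 4) := by
    have h1 : ∀ᶠ N : ℕ in atTop, (9 / 5) / (κ / 4) ≤ (N : ℝ) :=
      tendsto_natCast_atTop_atTop.eventually_ge_atTop _
    filter_upwards [h1] with N h1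
    rwa [div_le_iff₀ (by positivity)] at h1
  have hχi := abs_lt.1 hχ4.2
  have hh : (χ₀ + χ).im = χ₀.im + χ.im := Complex.add_im _ _
  set h : ℝ := (χ₀ + χ).im with hhd
  have hh1 : χ₀.im / 2 < h := by linarith
  have hh2 : h ≤ 9 / 5 := by linarith
  have hh3 : |h - χ₀.im| ≤ r := by
    rw [hh, add_sub_cancel_left]
    exact (Complex.abs_im_le_norm χ).trans hχn
  obtain ⟨y, hy0, hy⟩ := hCI m χ₀ χ R c' (κ / 4) V (fun N => TV N ls) G
    (fun j w => (1 / (2 * π : ℂ) ^ (2 * k)) * A j w) hR0 (by linarith) (by linarith)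
    (by linarith) hc' (by positivity) (fun N => TV_diff N ls)
    (fun N w => TV_congr N ls (Complex.cos_neg w)) hGd' (fun w hw => (hGb w (hsub hw)).2)
    hMWT hGXT hχ4 hχc hV (by
      have hNim : ∀ᶠ N : ℕ in atTop, 1 / (N : ℝ) ≤ χ₀.im / 2 := by
        have := tendsto_one_div_atTop_nhds_zero_nat (𝕜 := ℝ)
        exact (this.eventually_lt_const (u := χ₀.im / 2) (by positivity)).mono fun N hN => hN.le
      filter_upwards [hFA ls m hls0 hSub (κ / 4) (by positivity), hNim, hbigN] with N h1 hNim hbig x hx1 hx2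
      rw [← hhd]
      have h2 := (h1.2 (x + h * Complex.I) (by rwa [xy_re]) (by
        rw [xy_im, abs_of_pos (by linarith)]; exact hh2) (gap_of_im (by
        rw [xy_im, abs_of_pos (by linarith)]; linarith))).1
      rw [hlen] at h2
      have h3 := HC1 h (hh3.trans s2) x hx1 hx2
      have h4 := prodV_bd (m := m) (T := Vz k m χ₀) (κ := κ) (by linarith) hh2 h2 (by linarith) hbig
      refine h4.trans (Real.exp_le_exp.2 (mul_le_mul_of_nonneg_left ?_ (Nat.cast_nonneg N)))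
      linarith) (by
      filter_upwards [hFA ls m hls0 hSub (κ / 4) (by positivity), hbigN, eventually_ge_atTop 1000] with
        N h1 hbig hN y hy0 hy1 σ' hσ'
      rw [← hhd] at hy1
      obtain ⟨hRN1, hRN2⟩ := RN_bd hN
      have hRNp : 0 < RN N := by linarith
      have hx : |σ' * RN N| = RN N := by rw [abs_mul, hσ', one_mul, abs_of_pos hRNp]
      have hcast : ((σ' : ℂ) * (RN N : ℂ)) = ((σ' * RN N : ℝ) : ℂ) := by push_cast; rfl
      have hgap := gap_side (N := N) (by omega) y σ' hσ'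
      rw [hcast] at hgap ⊢
      have h2 := (h1.2 ((σ' * RN N : ℝ) + y * Complex.I) (by rw [xy_re, hx]; exact hRN2) (by
        rw [xy_im, abs_of_nonneg hy0]; linarith) hgap).1
      rw [hlen] at h2
      have h3 := (HC2 h (hh3.trans s3)).2 (σ' * RN N) y (by rw [hx]; exact hRN1)
        (by rw [hx]; exact hRN2) hy0 hy1
      have h4 := prodV_bd (m := m) (T := Vz k m χ₀) (κ := κ) hy0 (by linarith) h2 (by linarith) hbig
      refine h4.trans (Real.exp_le_exp.2 (mul_le_mul_of_nonneg_left ?_ (Nat.cast_nonneg N)))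
      linarith)
  set VC : ℂ := Complex.I * m * (χ₀ + χ) ^ 2 / (2 * π) + Complex.I * (χ₀ + χ) + G χ with hVC
  have hval : RVal3 szz (2 * k) (cw (wl ls)) m (z χ) (χ + χ₀) +
      ∑ j ∈ range (2 * k), F j (z χ j) = VC := by
    rw [hVC]
    unfold RVal3
    rw [hz3, add_comm χ χ₀]
    simp only [sum_add_distrib]
    ring
  rw [hval]
  have hS' : EXY (fun N => ES N ls m) VC (fun j => 1 * y j) := by
    refine exy_near 1 (κ := 1 / 800) (by norm_num) hy ?_
    filter_upwards [restV_bd hlen hls0 m hSub hFA hTH hVlo] with N h1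
    rw [one_mul]
    exact h1
  exact ⟨_, by show (1 : ℂ) * y 0 ≠ 0; rw [one_mul]; exact hy0, hS'⟩

theorem mxzf : S_MXZF := by
  have hRHO : S_RHO := Pool.Agent.Y105.CB.rho
  have hTB0 : S_TB0 := Pool.Agent.Y288.CB.tb0
  have hRY : S_RHOY := Pool.Agent.Y317.CB.rhoy
  have hTY : S_TBY := Pool.Agent.Y46.CB.tby
  have hS0 : S_S0P := Pool.Agent.Y710.CG.s0p
  have hKB : KBZc := Pool.Agent.Y68.CG.kbz Pool.Agent.Y238.CG.pf Pool.Agent.Y125.CG.cnb
    Pool.Agent.Y991.CG.lmi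
  have hSDc := Pool.Agent.Y641.CG.sdz hS0
  exact mxzf_of Pool.Agent.Y481.bet_pos Pool.Agent.Y899.DR.t_KFV
    (favc_of Pool.Agent.Y48.DR.t_FAZV hKB (Pool.Agent.Y37.CG.krz hTB0 hTY hRHO hRY)
      (Pool.Agent.Y252.CG.kaz hTB0 hRHO Pool.Agent.Y252.CG.rhoa) Pool.Agent.Y48.DR.t_TFBV
      Pool.Agent.Y899.DR.t_KFFV Pool.Agent.Y899.DR.t_KFV hS0)
    (thvc_of Pool.Agent.Y319.DR.thzv hTB0 hRHO Pool.Agent.Y79.CG.rhot)
    Pool.Agent.Y472.CJ.cizx (cszc_of Pool.Agent.Y761.CG.csz hS0)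
    (ctzc_of Pool.Agent.Y25.CG.ctz hS0) hS0 hSDc

end Pool.Agent.Y785.DX
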